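import Pool.Agent.TH678.PN.Main
import Pool.Agent.W900.CH.NELev

/-!
# Changed strings and `P^NP = NEXP`
-/

set_option autoImplicit false

namespace Pool.Agent.TH93.CH

open Pool.Agent.NPC Pool.Agent.H620R2.Gauge Pool.Agent.H622R2.Exp Finset MeasureTheory Filter
open Pool.Agent.TH678.PN
open Pool.Agent.W900.CH
open Pool.Agent.H628R3.RO (randomOracle)

/-- Every oracle can be changed at few strings such that `NEXP` is contained in `P^NP`. -/
theorem exists_close_PNP {g : ℕ → ℝ} {ε : ℝ} (hε : 0 < ε)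
    (hg : ∀ᶠ n : ℕ in atTop, 2 ^ (n : ℝ) ^ ε < g n) (O : Oracle) :
    ∃ A, Close g O A ∧ ∀ L, InNTime Pol A L → IsPNP A L := by
  classical
  have h1 := CC.poly_countable
  obtain ⟨al, hal⟩ := exists_alg
  have h2 : Countable Alg := inferInstance
  have h3 : Nonempty (Alg × Polynomial ℕ) := ⟨(al 0, 0)⟩
  obtain ⟨u, hu⟩ := exists_surjective_nat (Alg × Polynomial ℕ)
  choose rd hrd using cert_local
  obtain ⟨K, hK'⟩ := exists_K hε
  set R : ℕ → Polynomial ℕ := fun e => (Polynomial.X + Polynomial.C (e + 1)) ^ K with hR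
  have hRe : ∀ e n, (n + e + 1) ^ K ≤ (R e).eval n := by
    intro e n
    rw [hR]
    simp only [Polynomial.eval_pow, Polynomial.eval_add, Polynomial.eval_X, Polynomial.eval_C]
    rw [add_assoc]
  set p : ℕ → Polynomial ℕ := fun e => rd (u e).1 (u e).2 with hp
  set Q : ℕ → List Bool → Oracle → Prop := fun e x A =>
    ∃ w : List Bool, w.length ≤ 2 ^ (u e).2.eval x.length ∧
      (u e).1.out A (pairBits w x) = some [true] with hQ
  obtain ⟨A, hA1, hA2⟩ := (setting R p Q (fun e x A => hrd (u e).1 (u e).2 x A)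
    (fun e x => finDep_cert (u e).1 (u e).2 x)).exists_right O
  refine ⟨A, close_of_code hε hg hK' hRe fun y hy => hA1 y fun t v _ h => ?_, ?_⟩
  · exact hy t.1 _ h
  · rintro L ⟨V, ⟨M, hM⟩, q, _, hV⟩
    obtain ⟨e, he⟩ := hu (M, q)
    have h4 := isPNP_of_code R p A e
    have h5 : L = {x | Z (NN p) (cdN R p) (e, x) A % 2 = 1} := by
      ext x
      rw [hV x, Set.mem_ofPred_eq]
      have h6 : Q e x A ↔ Z (NN p) (cdN R p) (e, x) A % 2 = 1 := hA2 (e, x)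
      rw [← h6, hQ]
      simp only [he, hM, Option.some.injEq]
    rw [h5]
    exact h4

/-- the null set -/
theorem null_either (f : ℕ → ℝ) (hf : ∀ ε : ℝ, 0 < ε → ∃ᶠ N : ℕ in atTop,
    f N ≤ 2 ^ (Real.logb 2 N) ^ ε) :
    Null f {A : Oracle | (∀ L, IsPSPACE A L → IsPHpoly A L) ∨
      (∀ L, InTime Pol A L → WithAdvice (IsPSPACE A) L)} := by
  refine (keyPN f _ (fun A hA => Or.inr fun L hL => ?_) fun A hA => ?_).2 hf
  · exact ((hA L hL.isNTime).isPH.isPSPACE).withAdvice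
  · rcases hA with h | h
    · exact Or.inl h
    · refine Or.inr fun L hL => h L ?_
      obtain ⟨M, hM⟩ := hL
      exact ⟨M, M.p, Set.mem_univ _, hM⟩

theorem changedPNP (g : ℕ → ℝ) :
    ((∀ ε : ℝ, 0 < ε → ∃ᶠ n : ℕ in atTop, g n ≤ 2 ^ (n : ℝ) ^ ε) →
      ∀ᵐ O ∂randomOracle, ∀ A : Oracle, Close g O A →
        (∃ L, IsPSPACE A L ∧ ¬ IsPHpoly A L) ∧
        (∃ L, InTime Pol A L ∧ ¬ WithAdvice (IsPSPACE A) L) ∧
        ∃ L, InNTime Pol A L ∧ ¬ IsPNP A L) ∧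
    ((¬ ∀ ε : ℝ, 0 < ε → ∃ᶠ n : ℕ in atTop, g n ≤ 2 ^ (n : ℝ) ^ ε) →
      ∀ O : Oracle, ∃ A : Oracle, Close g O A ∧ ∀ L, IsPNP A L ↔ InNTime Pol A L) := by
  refine ⟨fun hg => ?_, fun hg O => ?_⟩
  · filter_upwards [ae_far_P null_either hg] with O hO A hA
    have h := hO A hA
    rw [not_or] at h
    obtain ⟨h1, h2⟩ := h
    push Not at h1 h2
    refine ⟨h1, h2, ?_⟩
    obtain ⟨L, h3, h4⟩ := h2
    exact ⟨L, h3.isNTime, fun h => h4 (h.isPH.isPSPACE).withAdvice⟩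
  · push Not at hg
    obtain ⟨ε, hε, h⟩ := hg
    obtain ⟨A, h1, h2⟩ := exists_close_PNP hε h O
    exact ⟨A, h1, fun L => ⟨fun h => h.isPH.isPSPACE.inTime.isNTime, h2 L⟩⟩

end Pool.Agent.TH93.CH
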