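import Pool.Agent.W911.IB.Adv
import Pool.Agent.W900.CH.NELev
import Pool.Agent.H620R2.Gauge.Cover
import Pool.Agent.H620R2.Gauge.NonNull
import Pool.Agent.H620R2.Gauge.P
import Pool.Agent.H620R2.Gauge.U2
import Pool.Agent.H943R3.PP.N2
import Pool.Agent.H943R3.PP.N3
import Pool.Agent.H943R3.PP.N4
import Pool.Agent.H943R3.PP.N5

/-!
# Changed strings and `PP` in the polynomial hierarchy
-/

set_option autoImplicit false

namespace Pool.Agent.TH93.CH

open Pool.Agent.NPC Pool.Agent.H622R2 Pool.Agent.H943R3.PP MeasureTheory Filter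
open Pool.Agent.W911.IB
open Pool.Agent.H490R3.LH.EQAx
open Pool.Agent.H620R2.Gauge
open Pool.Agent.W900.CH
open Pool.Agent.H628R3.RO (randomOracle)

/-- parity from the exact numbers, with advice -/
theorem par_of_ex {A : Oracle} (h : IsPHpoly A (exLang A)) : IsPHpoly A (parLang A) := by
  obtain ⟨L', adv, q, hL', hadv, hK⟩ := h
  obtain ⟨Bd, hBd⟩ : ∃ r : Polynomial ℕ, ∀ n, r.eval n =
      (3 * n + 4) * (4 * q.eval (3 * n + 4) + 2) + 1 :=
    ⟨(3 * Polynomial.X + 4) * (4 * q.comp (3 * Polynomial.X + 4) + 2) + 1,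
      fun n => by simp [Polynomial.eval_comp]⟩
  have hw : Poly (fun z : List Bool => (unpair z).1) := Poly.fst poly_unpair
  have hu : Poly (fun z : List Bool => (unpair z).2) := Poly.snd poly_unpair
  have hx : Poly (fun z : List Bool => (unpair (unpair z).2).1) :=
    Poly.fst (poly_unpair.comp hu)
  have hc : Poly (fun z : List Bool => (unpair (unpair z).2).2) :=
    Poly.snd (poly_unpair.comp hu)
  have hy : Poly (fun z : List Bool => pairBits (unpair z).1 (unpair (unpair z).2).1) :=
    H622R2.poly_pairBits hw hx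
  have hR : PHp A (fun z => pairBits (pairBits (unpair z).1 (unpair (unpair z).2).1)
      (comp (unpair (unpair z).2).2 (pairBits (unpair z).1 (unpair (unpair z).2).1).length)
        ∈ L') :=
    (isPH_iff.1 hL').red (H622R2.poly_pairBits hy (poly_comp hc (Poly.length hy)))
  have hμ : UPoly (fun u : List Bool => (unpair u).1.length + 1) :=
    (UPoly.length (Poly.fst poly_unpair)).add (UPoly.const 1)
  have hE := hR.ex hμ
  refine ⟨{u | ∃ w : List Bool, w.length ≤ (unpair u).1.length + 1 ∧
      pairBits (pairBits w (unpair u).1) (comp (unpair u).2 (pairBits w (unpair u).1).length)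
        ∈ L'}, fun n => bits ((List.range (3 * n + 4)).map adv), Bd, ?_, fun n => ?_,
      fun x => ?_⟩
  · refine isPH_iff.2 (hE.congr fun u => ?_)
    rw [Set.mem_ofPred_eq]
    simp only [unpair_pairBits]
  · rw [bits_length, hBd]
    have h1 := sz_le_length_mul ((List.range (3 * n + 4)).map adv)
      (4 * q.eval (3 * n + 4) + 1) (by
        intro a ha
        obtain ⟨i, hi, rfl⟩ := List.mem_map.1 ha
        rw [List.mem_range] at hi
        have h2 := sz_listBool_le (adv i)
        have h3 := hadv i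
        have h4 : q.eval i ≤ q.eval (3 * n + 4) := eval_mono q (by omega)
        omega)
    rw [List.length_map, List.length_range] at h1
    exact h1
  · rw [parLang_eq, Set.mem_ofPred_eq, Set.mem_ofPred_eq]
    simp only [unpair_pairBits, Polynomial.eval_add, Polynomial.eval_X, Polynomial.eval_one]
    refine exists_congr fun w => and_congr_right fun hwl => ?_
    have hlen : (pairBits w x).length = 2 * w.length + 1 + x.length := by
      rw [Pool.Agent.H620R2.Gauge.A2.length_pairBits]
      omega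
    have e1 : comp (bits ((List.range (3 * x.length + 4)).map adv)) (pairBits w x).length =
        adv (pairBits w x).length := by
      rw [comp_bits, List.getD_eq_getElem?_getD, List.getElem?_map,
        List.getElem?_range (by omega)]
      rfl
    rw [e1]
    exact hK _

/-- the null set -/
theorem null_pp (f : ℕ → ℝ) (hf : ∀ ε : ℝ, 0 < ε → ∃ᶠ N : ℕ in atTop,
    f N ≤ 2 ^ (Real.logb 2 N) ^ ε) :
    Null f {A : Oracle | ∀ L, IsPP A L → IsPHpoly A L} :=
  null_of_frequently f hf _ fun A hA => par_of_ex (hA _ (exLang_pp A))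

theorem changedPP (g : ℕ → ℝ) :
    ((∀ ε : ℝ, 0 < ε → ∃ᶠ n : ℕ in atTop, g n ≤ 2 ^ (n : ℝ) ^ ε) →
      ∀ᵐ O ∂randomOracle, ∀ A : Oracle, Close g O A →
        ∃ L, IsPP A L ∧ ¬ IsPHpoly A L) ∧
    ((¬ ∀ ε : ℝ, 0 < ε → ∃ᶠ n : ℕ in atTop, g n ≤ 2 ^ (n : ℝ) ^ ε) →
      ∀ O : Oracle, ∃ A : Oracle, Close g O A ∧ ∀ L, IsPP A L → IsP A L) := by
  refine ⟨fun hg => ?_, fun hg O => ?_⟩
  · filter_upwards [ae_far_P null_pp hg] with O hO A hA
    have h := hO A hA
    push Not at h
    exact h
  · obtain ⟨A, h1, h2⟩ := exists_close_PSPACE hg O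
    exact ⟨A, h1, fun L hL => isP_of_reduces (h2 L (isPSPACE_of_isPP hL))⟩

end Pool.Agent.TH93.CH
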